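import Mathlib
import Pool.Agent.KS6_27.MLb

set_option autoImplicit false

open Set

namespace Pool.Agent.Results.MP_019b27_al.NoCountableSuprema

open Pool.Agent.Results.MP_019b27_al.NoCompleteExtension (Tm Holds)

universe u

/-- `K` belongs to the quasivariety generated by `M`: every quasi-identity of `M` holds in `K`
(`Tm` are the lattice terms, `Holds L P c` says that `L` satisfies the quasi-identity with the
premises `P` and the conclusion `c`). -/
def InQuasivariety (M : Type) [Lattice M] (K : Type u) [Lattice K] : Prop :=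
  ∀ (P : List (Tm × Tm)) (c : Tm × Tm), Holds M P c → Holds K P c

/-- There is a countable modular lattice `M` with a bounded increasing sequence `a` and a bounded
decreasing sequence `b` such that `a` has no supremum and `b` has no infimum in any lattice `K` which
contains `M` and belongs to the quasivariety of `M` (it is enough that `K` satisfies three
quasi-identities valid in `M`). In particular no such `K` is complete, or conditionally
countably complete on one side, or algebraic, or spatial. -/
theorem result :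
    (∃ (M : Type) (_ : Lattice M), Countable M ∧ IsModularLattice M ∧
      ∃ a b : ℕ → M, Monotone a ∧ BddAbove (range a) ∧ Antitone b ∧ BddBelow (range b) ∧
        (∃ S : Finset (List (Tm × Tm) × (Tm × Tm)), S.card ≤ 3 ∧ (∀ s ∈ S, Holds M s.1 s.2) ∧
          ∀ (K : Type u) [Lattice K], (∀ s ∈ S, Holds K s.1 s.2) →
            ∀ f : LatticeHom M K, Function.Injective f →
              (∀ x, ¬ IsLUB (range fun n => f (a n)) x) ∧
              (∀ x, ¬ IsGLB (range fun n => f (b n)) x)) ∧
        (∀ (K : Type u) [Lattice K], InQuasivariety M K →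
            ∀ f : LatticeHom M K, Function.Injective f →
              (∀ x, ¬ IsLUB (range fun n => f (a n)) x) ∧
              (∀ x, ¬ IsGLB (range fun n => f (b n)) x)) ∧
        (∀ (K : Type u) [CompleteLattice K], InQuasivariety M K →
            ∀ f : LatticeHom M K, ¬ Function.Injective f)) := by
  classical
  open Pool.Agent.KS6_27.ML Pool.Agent.Results.MP_019b27_al.NoCompleteExtension in
  obtain ⟨M, hM, hc, h1, h2, h3, ⟨X, Y, G, D, d, a, hB⟩, ⟨X', Y', G', D', d', b, hB'⟩⟩ := main
  have key : ∀ (K : Type u) [Lattice K],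
      Holds K [] Pool.Agent.Results.MP_019b27_al.NoCompleteExtension.modLaw →
      Holds K Pool.Agent.Results.MP_019b27_al.NoCompleteExtension.prem
        (Pool.Agent.Results.MP_019b27_al.NoCompleteExtension.tauT, .var 4) →
      Holds K (Pool.Agent.KS6_27.ML.duP Pool.Agent.Results.MP_019b27_al.NoCompleteExtension.prem)
        (Pool.Agent.KS6_27.ML.du Pool.Agent.Results.MP_019b27_al.NoCompleteExtension.tauT,
          Pool.Agent.KS6_27.ML.du (.var 4)) →
      ∀ f : LatticeHom M K, Function.Injective f →
        (∀ x, ¬ IsLUB (range fun n => f (a n)) x) ∧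
        (∀ x, ¬ IsGLB (range fun n => f (OrderDual.ofDual (b n))) x) := by
    intro K _ k1 k2 k3 f hf
    have : IsModularLattice K :=
      (Pool.Agent.Results.MP_019b27_al.NoCompleteExtension.mod_iff K).2 k1
    refine ⟨fun x => hB.no_lub k2 f hf x, fun x hx => ?_⟩
    have k3' : Holds Kᵒᵈ Pool.Agent.Results.MP_019b27_al.NoCompleteExtension.prem
        (Pool.Agent.Results.MP_019b27_al.NoCompleteExtension.tauT, .var 4) :=
      (Pool.Agent.KS6_27.ML.holds_dual _ _).2 k3
    refine hB'.no_lub k3' (LatticeHom.dual f)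
      (fun u v h => OrderDual.ofDual_inj.1 (hf (OrderDual.toDual_inj.1 h)))
      (OrderDual.toDual x) ?_
    exact ⟨fun _ ⟨n, hn⟩ => hn ▸ hx.1 ⟨n, rfl⟩, fun z hz => hx.2 fun _ ⟨n, hn⟩ => hn ▸ hz ⟨n, rfl⟩⟩
  have kq : ∀ (K : Type u) [Lattice K], InQuasivariety M K →
      ∀ f : LatticeHom M K, Function.Injective f →
        (∀ x, ¬ IsLUB (range fun n => f (a n)) x) ∧
        (∀ x, ¬ IsGLB (range fun n => f (OrderDual.ofDual (b n))) x) :=
    fun K _ hK f hf => key K (hK _ _ h1) (hK _ _ h2) (hK _ _ h3) f hf
  refine ⟨M, hM, hc, (Pool.Agent.Results.MP_019b27_al.NoCompleteExtension.mod_iff M).2 h1, a,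
    fun n => OrderDual.ofDual (b n), hB.2.2.2.2.2.2.2.2.2.1, ?_, ?_, ?_, ?_, kq, ?_⟩
  · exact ⟨d, by rintro _ ⟨n, rfl⟩; exact hB.2.2.2.2.2.2.2.2.1 n⟩
  · intro m n hmn
    exact hB'.2.2.2.2.2.2.2.2.2.1 hmn
  · exact ⟨OrderDual.ofDual d', by rintro _ ⟨n, rfl⟩; exact hB'.2.2.2.2.2.2.2.2.1 n⟩
  · refine ⟨{([], Pool.Agent.Results.MP_019b27_al.NoCompleteExtension.modLaw),
      (Pool.Agent.Results.MP_019b27_al.NoCompleteExtension.prem,
        (Pool.Agent.Results.MP_019b27_al.NoCompleteExtension.tauT, .var 4)),
      (Pool.Agent.KS6_27.ML.duP Pool.Agent.Results.MP_019b27_al.NoCompleteExtension.prem,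
        (Pool.Agent.KS6_27.ML.du Pool.Agent.Results.MP_019b27_al.NoCompleteExtension.tauT,
          Pool.Agent.KS6_27.ML.du (.var 4)))}, Finset.card_le_three, ?_, ?_⟩
    · intro s hs
      simp only [Finset.mem_insert, Finset.mem_singleton] at hs
      rcases hs with rfl | rfl | rfl
      · exact h1
      · exact h2
      · exact h3
    · intro K _ hK f hf
      exact key K (hK _ (Finset.mem_insert_self _ _))
        (hK _ (Finset.mem_insert_of_mem (Finset.mem_insert_self _ _)))
        (hK _ (Finset.mem_insert_of_mem (Finset.mem_insert_of_mem (Finset.mem_singleton_self _))))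
        f hf
  · intro K _ hK f hf
    exact (kq K hK f hf).1 _ (isLUB_iSup)

end Pool.Agent.Results.MP_019b27_al.NoCountableSuprema
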